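import Pool.Agent.W_448w7_h15.WnA

/-!
The elements of level 16 below an anchor (MP_448cb3_co, S7, `j = 14`, window 7): cones, costs
-/

namespace Pool.Agent.GaussPoset.W7

set_option linter.unusedSectionVars false

open Polynomial Finset Fi Cl Dd Wd

universe u

variable {P : Type u} [Fintype P] [PartialOrder P] [DecidableEq P] {r n0 : ℕ}
  {N : Tops P → Finset P} {b : Tops P → ℕ} {θ : Tops P → P → ℕ}

section Two

variable {z c w : P}

/-- the elements above an element with two covers -/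
lemma lt_two (hzc : z ⋖ c) (hzw : z ⋖ w) (hcov : ∀ y, z ⋖ y → y = c ∨ y = w) (x : P) :
    z < x ↔ c ≤ x ∨ w ≤ x := by
  constructor
  · intro h
    obtain ⟨v, hv, hvx⟩ := Hul.exists_cov h
    rcases hcov v hv with rfl | rfl
    · exact Or.inl hvx
    · exact Or.inr hvx
  · rintro (h | h)
    · exact hzc.1.trans_le h
    · exact hzw.1.trans_le h

/-- the cost, disjoint cones -/
lemma ct_dis {i k : ℕ} (hzc : z ⋖ c) (hzw : z ⋖ w) (hcov : ∀ y, z ⋖ y → y = c ∨ y = w)
    (hd : ∀ x, c ≤ x → ¬ w ≤ x) : ct i k z = min k (lev z - i) + ct i k c + ct i k w := by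
  classical
  rw [ct_succ, ct_eq_sum i k c, ct_eq_sum i k w, add_assoc, ← Finset.sum_add_distrib]
  congr 1
  refine Finset.sum_congr rfl fun x _ => ?_
  by_cases h1 : c ≤ x
  · rw [if_pos h1, if_neg (hd x h1), if_pos ((lt_two hzc hzw hcov x).mpr (Or.inl h1)), add_zero]
  · by_cases h2 : w ≤ x
    · rw [if_neg h1, if_pos h2, if_pos ((lt_two hzc hzw hcov x).mpr (Or.inr h2)), zero_add]
    · rw [if_neg h1, if_neg h2, if_neg fun h => ((lt_two hzc hzw hcov x).mp h).elim h1 h2]

/-- the numbers of the elements above, disjoint cones -/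
lemma nab_dis {l : ℕ} (hl : l < lev z) (hzc : z ⋖ c) (hzw : z ⋖ w)
    (hcov : ∀ y, z ⋖ y → y = c ∨ y = w) (hd : ∀ x, c ≤ x → ¬ w ≤ x) :
    nab l z = nab l c + nab l w := by
  classical
  unfold nab
  rw [← Finset.card_union_of_disjoint]
  · congr 1
    ext x
    rw [mem_union, mem_filter, mem_filter, mem_filter, mem_lv]
    constructor
    · rintro ⟨h1, h2⟩
      have h3 : z < x := lt_of_le_of_ne h2 (by rintro rfl; omega)
      rcases (lt_two hzc hzw hcov x).mp h3 with h | h
      · exact Or.inl ⟨h1, h⟩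
      · exact Or.inr ⟨h1, h⟩
    · rintro (⟨h1, h2⟩ | ⟨h1, h2⟩)
      · exact ⟨h1, ((lt_two hzc hzw hcov x).mpr (Or.inl h2)).le⟩
      · exact ⟨h1, ((lt_two hzc hzw hcov x).mpr (Or.inr h2)).le⟩
  · rw [Finset.disjoint_left]
    intro x hx hx'
    rw [mem_filter] at hx hx'
    exact hd x hx.2 hx'.2

lemma nab_mono' {l : ℕ} (h : z ≤ c) : nab l c ≤ nab l z := by
  classical
  unfold nab
  refine Finset.card_le_card fun x hx => ?_
  rw [mem_filter] at hx ⊢
  exact ⟨hx.1, h.trans hx.2⟩

/-- the cost by levels -/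
lemma ct_lev {k : ℕ} {x : P} (hl : lev x = 15) :
    ct 7 k x = ∑ l ∈ range 16, min k (l - 7) * nab l x := by
  unfold ct
  rw [cst_eq, hl]

lemma ct2_two {x : P} (hl : lev x = 15) (h : ∀ k, 8 ≤ k → k ≤ 14 → 2 ≤ nab k x) :
    28 ≤ ct 7 2 x := by
  rw [ct_lev hl]
  have h8 := h 8 (by omega) (by omega)
  have h9 := h 9 (by omega) (by omega)
  have h10 := h 10 (by omega) (by omega)
  have h11 := h 11 (by omega) (by omega)
  have h12 := h 12 (by omega) (by omega)
  have h13 := h 13 (by omega) (by omega)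
  have h14 := h 14 (by omega) (by omega)
  have h15 : 1 ≤ nab 15 x := one_le_nab (by omega)
  simp only [Finset.sum_range_succ, Finset.sum_range_zero]
  norm_num
  omega

lemma ct3_ge {x : P} (hl : lev x = 15) : 21 ≤ ct 7 3 x := by
  rw [ct_lev hl]
  have h8 : 1 ≤ nab 8 x := one_le_nab (by omega)
  have h9 : 1 ≤ nab 9 x := one_le_nab (by omega)
  have h10 : 1 ≤ nab 10 x := one_le_nab (by omega)
  have h11 : 1 ≤ nab 11 x := one_le_nab (by omega)
  have h12 : 1 ≤ nab 12 x := one_le_nab (by omega)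
  have h13 : 1 ≤ nab 13 x := one_le_nab (by omega)
  have h14 : 1 ≤ nab 14 x := one_le_nab (by omega)
  have h15 : 1 ≤ nab 15 x := one_le_nab (by omega)
  simp only [Finset.sum_range_succ, Finset.sum_range_zero]
  norm_num
  omega

end Two

/-- the cost below two elements of level 15 of the same strip: the pendant of the first cell, two
elements below the last two cells -/
theorem join_two {t : P} {lo hi : ℕ → ℕ} {e : ℕ → ℕ → P} {z c d : P} {m : ℕ}
    (D : WordD 14 7 wa7 lo hi) (C : Cp.Comp 14 t lo hi e) (hgt : Win.GoodTo P r 14)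
    (ht : lev t = 0) (hne : c ≠ d) (hc : Sg.Mk e c 805306368) (hd : Sg.Mk e d m)
    (hm : m = 33554432 ∨ m = 805306368) (hz : ∀ y, z ⋖ y ↔ y = c ∨ y = d) :
    (m = 33554432 → 40 ≤ ct 7 2 z) ∧ (m = 805306368 → ct 7 2 z = 32) ∧ nab 7 z = 2 ∧
      nab 9 z = 2 := by
  have hl : GaussPoset.lev z = 16 := by
    have := (hgt.H.covBy_iff.mp ((hz c).mpr (Or.inl rfl))).2
    rw [hc.1] at this
    exact this
  have hzm : ∀ y, z ⋖ y ↔ ∃ b < 30 + 2, (3221225472 : ℕ).testBit b = true ∧
      Sg.cz e (Sg.two c d) b = y := by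
    intro y
    have h0 : ∀ b < 32, (3221225472 : ℕ).testBit b = true → b = 30 ∨ b = 31 := by decide +kernel
    have e0 : Sg.cz e (Sg.two c d) 30 = c := rfl
    have e1 : Sg.cz e (Sg.two c d) 31 = d := rfl
    rw [hz]
    constructor
    · rintro (rfl | rfl)
      · exact ⟨30, by norm_num, by decide, e0⟩
      · exact ⟨31, by norm_num, by decide, e1⟩
    · rintro ⟨b, hb, hbit, rfl⟩
      rcases h0 b hb hbit with rfl | rfl
      · exact Or.inl e0
      · exact Or.inr e1
  have key : ∀ (m : ℕ), Sg.Mk e d m → (∀ a < 32, (Tv.cvJ m).getD a 0 < 2 ^ a) →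
      (∀ a < 32, (Tv.umJ m).getD a 0 = Nat.lor (2 ^ a)
        (orM (fun a => (Tv.umJ m).getD a 0) 32 ((Tv.cvJ m).getD a 0))) → m < 2 ^ 30 →
      (∀ a < 30, (Tv.cvJ m).getD a 0 = La7cv.getD a 0) →
      (Tv.cvJ m).getD 30 0 = 805306368 → (Tv.cvJ m).getD 31 0 = m →
      (∀ k, ct 7 k z = min k 9 + ∑ b ∈ (range 32).filter
        (fun b => (orM (fun a => (Tv.umJ m).getD a 0) 32 3221225472).testBit b = true),
          min k (Tv.lvJ.getD b 0 - 7)) ∧ ∀ l, l ≤ 14 → nab l z = ((range 32).filter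
            (fun b => (orM (fun a => (Tv.umJ m).getD a 0) 32 3221225472).testBit b = true ∧
              Tv.lvJ.getD b 0 = l)).card := by
    intro m hd h1 h2 h3 h4 h5 h6
    have hC : Cod (30 + 2) (fun a => (Tv.cvJ m).getD a 0) (fun a => Tv.lvJ.getD a 0)
        (Sg.cz e (Sg.two c d)) := by
      refine Sg.La7_ext D C hgt ht (cx := fun k => if k = 0 then 805306368 else m) h4
        (by decide +kernel) ?_ ?_ ?_ (Sg.two_inj hne) (Sg.two_all hc hd)
      · intro k hk
        obtain rfl | rfl : k = 0 ∨ k = 1 := by omega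
        · exact h5
        · exact h6
      · intro k hk
        obtain rfl | rfl : k = 0 ∨ k = 1 := by omega
        · decide
        · decide
      · intro k hk
        obtain rfl | rfl : k = 0 ∨ k = 1 := by omega
        · norm_num
        · exact h3
    refine ⟨fun k => ?_, fun l hl2 => ?_⟩
    · rw [Sg.cod_ct hC h1 h2 hzm, hl]
    · rw [Tv.cod_nab hC h1 h2 hzm (by rw [hl]; omega)]
  rcases hm with rfl | rfl
  · obtain ⟨g1, g2⟩ := key _ hd (by decide +kernel) (by decide +kernel) (by norm_num)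
      (by decide +kernel) (by decide) (by decide)
    rw [g1, g2 7 (by norm_num), g2 9 (by norm_num)]
    decide +kernel
  · obtain ⟨g1, g2⟩ := key _ hd (by decide +kernel) (by decide +kernel) (by norm_num)
      (by decide +kernel) (by decide) (by decide)
    rw [g1, g2 7 (by norm_num), g2 9 (by norm_num)]
    decide +kernel

end Pool.Agent.GaussPoset.W7
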