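import Pool.Agent.W_448w7_h67.CxA

/-!
The elements of level 16 below an anchor: the kinds (MP_448cb3_co, S7, `j = 14`, window 7)
-/

namespace Pool.Agent.GaussPoset.W7

set_option linter.unusedSectionVars false

open Polynomial Finset Fi Cl Dd Wd

universe u

variable {P : Type u} [Fintype P] [PartialOrder P] [DecidableEq P] {r n0 : ℕ}
  {N : Tops P → Finset P} {b : Tops P → ℕ} {θ : Tops P → P → ℕ}

lemma inR_two {x : P} {Nc : Finset P} {co : P → ℕ × ℕ} (h : Fi.InR 7 7 N b θ x Nc co)
    (hl : lev x = 15) : ∀ k, 8 ≤ k → k ≤ 14 → 2 ≤ nab k x := by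
  intro k hk hk2
  have h1 := h.rect.chart.lev x h.mem
  have h2 := h.fst
  have h3 := h.snd
  rw [nab_chart h.rect.chart h.mem]
  have := card_cellsAt_true (l := k) (p := co x) (by omega)
  omega

lemma inS_two {x : P} {Nc : Finset P} {co : P → ℕ × ℕ} (h : Fi.InS 7 7 N b θ x Nc co)
    (hl : lev x = 15) : ∀ k, 8 ≤ k → k ≤ 14 → 2 ≤ nab k x := by
  intro k hk hk2
  have h1 := h.stair.chart.lev x h.mem
  have h2 := h.fst
  have h3 : (co x).1 ≤ (co x).2 := h.stair.chart.mem x h.mem
  rw [nab_chart h.stair.chart h.mem]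
  have := card_cellsAt_shift (l := k) (p := co x) h3 (by omega)
  omega

lemma ct_mono_k {k k' : ℕ} {x : P} (h : k ≤ k') : ct 7 k x ≤ ct 7 k' x := by
  classical
  rw [ct_eq_sum, ct_eq_sum]
  refine Finset.sum_le_sum fun y _ => ?_
  split_ifs
  · exact min_le_min_right _ h
  · exact le_rfl

/-- the tops of the elements off `r2` -/
lemma WL.cp_r2 (W : WL r n0 N b θ) {x y : P} (hxy : x ≤ y) (hx : x ∉ r2 (2 * 7) N) :
    topOf x = topOf y := by
  by_cases hY : x ∈ twY (2 * 7) N
  · rcases eq_or_lt_of_le hxy with h | h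
    · rw [h]
    · have T := W.twSys
      have h1 := (T.up x hY y).mpr h
      rw [← T.cp x hY]
      exact W.natSys.cp _ _ h1.le (T.nat x hY)
  · exact W.natSys.cp x y hxy fun h => hx (mem_sdiff.mpr ⟨h, hY⟩)

/-- the thresholds of the elements of level 15 -/
theorem WL.two_or (W : WL r n0 N b θ) {w z : P} (hw : w ∉ r2 (2 * 7) N) (hl : lev w = 15)
    (hz : z ∈ unnat N) (hzw : z ⋖ w) :
    2 ≤ th2 N θ w ∨ 21 ≤ ct 7 2 w ∨ 51 ≤ ct 7 2 z := by
  by_cases hY : w ∈ twY (2 * 7) N
  · right; left
    have T := W.twSys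
    have h1 : ct 7 2 w = ct 7 2 (twT N w) := ct_congr_up fun x => (T.up w hY x).symm
    have h2 : lev (twT N w) = 15 := by rw [T.lev hY]; exact hl
    have h3 : 28 ≤ ct 7 2 (twT N w) := by
      rcases W.tw_inner hY with ⟨Nc, co, h⟩ | ⟨Nc, co, h⟩
      · exact ct2_two h2 (inR_two h h2)
      · exact ct2_two h2 (inS_two h h2)
    omega
  · have hwN : w ∉ unnat N := fun h => hw (mem_sdiff.mpr ⟨h, hY⟩)
    have hth : th2 N θ w = θ (topOf w) w := by
      unfold th2
      rw [thX_not hY]
    rw [hth]
    rcases W.cases hwN with h | ⟨Nc, co, h⟩ | ⟨Nc, co, h⟩ | h | h | h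
    · left
      rw [h.th, hl]
      norm_num
    · have := ct2_two hl (inR_two h hl)
      omega
    · have := ct2_two hl (inS_two h hl)
      omega
    · have h1 := h.oth.h9 z hz w h.mem hl.ge hzw
      by_cases h2 : 2 ≤ θ (topOf w) w
      · exact Or.inl h2
      · right; right
        exact h1.trans (ct_mono_k (by omega))
    · right; left
      obtain ⟨lo, hi, e, A, L⟩ := h.ex
      have hA := (L.mem15 h.mem hl.ge).1
      obtain ⟨m, hm, hmk⟩ := L.dat.msk hA
      have key : ∀ m ∈ ms4, m ∈ [33554432, 67108864, 100663296, 201326592, 402653184,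
          805306368] := by decide
      exact Tv.ct2_facts L.word L.comp W.gt (topOf w).2 hmk (key m hm)
    · have := h.lev
      omega

/-- the elements above a pendant -/
lemma nab_pend {l : ℕ} {z c : P} (h : Pend z c) (hl : l < lev z) : nab l z = nab l c := by
  classical
  unfold nab
  congr 1
  ext x
  rw [mem_filter, mem_filter, mem_lv]
  constructor
  · rintro ⟨h1, h2⟩
    have h3 : z < x := lt_of_le_of_ne h2 (by rintro rfl; omega)
    obtain ⟨v, hv, hvx⟩ := Hul.exists_cov h3
    rw [h.2 v hv] at hvx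
    exact ⟨h1, hvx⟩
  · rintro ⟨h1, h2⟩
    exact ⟨h1, h.1.1.le.trans h2⟩

/-- **the kinds of the elements of level 16 below an anchor** -/
theorem WL.c16 (W : WL r n0 N b θ) (J : JH P)
    (hE : ∀ v : P, lev v = 15 → (∀ y, v ⋖ y → y ≤ (topOf v : P)) → E15 v) {c z : P}
    (hc : Ank n0 N θ c) (hz : z ∈ bdR (r2 (2 * 7) N)) (hzc : z ⋖ c) :
    C16 n0 N θ c z ∧ (ct 7 2 z ≤ 50 → nab 7 z ≤ nab 9 z) := by
  classical
  have H := W.gt.H
  have HN := W.natSys
  have hzR : z ∈ unnat N := (mem_sdiff.mp (mem_filter.mp hz).1).1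
  obtain ⟨lo, hi, e, A, L, hA, hm⟩ := hc
  have hlc : lev c = 15 := hm.1
  have hlz : lev z = 16 := by
    have := (H.covBy_iff.mp hzc).2
    omega
  obtain ⟨f1, f2, f3, f4, f5⟩ := Tv.c34_facts L.word L.comp W.gt (topOf c).2 hm
  have hcN : c ∈ N (topOf c) := by
    rw [L.nat]
    exact mem_union_right _ hA
  by_cases hon : ∀ y, z ⋖ y → y = c
  · have hp : Pend z c := ⟨hzc, hon⟩
    refine ⟨C16.P hon (Tv.pend_c34 L.word L.comp W.gt (topOf c).2 hm hp) ?_, fun _ => ?_⟩
    · rw [Tv.ct_of_pend hp, hlz, f2]
      norm_num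
    · rw [nab_pend hp (by omega), nab_pend hp (by omega), f3, f5]
  · push Not at hon
    obtain ⟨w, hzw, hwc⟩ := hon
    have hcw : c ≠ w := Ne.symm hwc
    have hcov : ∀ y, z ⋖ y → y = c ∨ y = w := fun y hy => uc_pair H hzc hzw hcw hy
    have hiff : ∀ y, z ⋖ y ↔ y = c ∨ y = w := by
      intro y
      constructor
      · exact hcov y
      · rintro (rfl | rfl)
        · exact hzc
        · exact hzw
    have hlw : lev w = 15 := by
      have := (H.covBy_iff.mp hzw).2
      omega
    have hcv2 := ct_cov (i := 7) (k := 2) hzw.1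
    rw [hlz] at hcv2
    by_cases hwR : w ∈ r2 (2 * 7) N
    · by_cases h1 : ∃ y, w ⋖ y ∧ y ≤ (topOf c : P)
      · obtain ⟨y, hy, hyt⟩ := h1
        by_cases h2 : ∀ y', w ⋖ y' → y' ≤ (topOf c : P)
        · rcases L.dat.full w hlw h2 with h3 | h3
          · exfalso
            refine mem_unnat.mp (mem_sdiff.mp hwR).1 (topOf c) ?_
            rw [L.nat]
            exact mem_union_right _ h3
          · obtain ⟨g1, -, g3, g4⟩ := join_two L.word L.comp W.gt (topOf c).2 hcw hm h3
              (Or.inl rfl) hiff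
            exact ⟨C16.Q w ⟨topOf c, lo, hi, e, A, L, h3⟩ (W.mem_bd hwR hlw) hlw hzw (g1 rfl),
              fun _ => by omega⟩
        · push Not at h2
          obtain ⟨y', hy', hyt'⟩ := h2
          have hly : lev y = 14 := by
            have := (H.covBy_iff.mp hy).2
            omega
          have hyN : y ∈ N (topOf y) := HN.mem_iff.mpr ⟨W.low (by omega), rfl⟩
          have hty : topOf c = topOf y := Subtype.ext (HN.top_eq hyN (topOf c).2 hyt)
          have hty' : topOf y ≠ topOf y' := fun h => hyt' (by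
            rw [hty, h]
            exact le_topOf y')
          have hw50 : ct 7 2 w = 50 := by
            rcases J.hJ w y y' hlw hy hy' hty' with ⟨a1, a2⟩ | ⟨a1, a2⟩
            · obtain ⟨-, b1, b2, -⟩ := W.fb_num a1 a2 hty' hy hy'
              rwa [cst_ct b1] at b2
            · obtain ⟨-, b1, b2, -⟩ := W.fb_num a1 a2 (Ne.symm hty') hy' hy
              rwa [cst_ct b1] at b2
          have hmin : min 2 (16 - 7) = 2 := by norm_num
          have : 51 ≤ ct 7 2 z := by omega
          exact ⟨C16.big this, fun h => by omega⟩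
      · push Not at h1
        have hdis : ∀ x, c ≤ x → ¬ w ≤ x := by
          intro x hcx hwx
          have hxN : x ∈ N (topOf c) := HN.up _ c hcN x hcx
          have hne : w ≠ x := by
            rintro rfl
            exact mem_unnat.mp (mem_sdiff.mp hwR).1 _ hxN
          obtain ⟨y, hy, hyx⟩ := Hul.exists_cov (lt_of_le_of_ne hwx hne)
          exact h1 y hy (hyx.trans (HN.le_t _ x hxN))
        have hct := ct_dis (i := 7) (k := 2) hzc hzw hcov hdis
        have hw : 21 ≤ ct 7 2 w := by
          rcases W.rows J hwR hlw with ⟨t', lo', hi', e', A', L', hm'⟩ |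
            ⟨x, x', g1, g2, g3, g4, g5⟩ | ⟨g, g'⟩
          · exact Tv.ct2_facts L'.word L'.comp W.gt t'.2 hm' (by simp)
          · obtain ⟨-, b1, b2, -⟩ := W.fb_num g1 g2 g3 g4 g5
            rw [cst_ct b1] at b2
            omega
          · have := ct2_two hlw (fun k hk hk2 => g' k (by omega) hk2)
            omega
        have hmin : min 2 (lev z - 7) = 2 := by rw [hlz]; norm_num
        have : 51 ≤ ct 7 2 z := by omega
        exact ⟨C16.big this, fun h => by omega⟩
    · by_cases ht : topOf w = topOf c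
      · have hwY : w ∉ twY (2 * 7) N := by
          intro hY
          have T := W.twSys
          have h1 := T.cp w hY
          rw [ht] at h1
          have h2 : twT N w ∈ N (topOf (twT N w)) := HN.mem_iff.mpr ⟨T.nat w hY, rfl⟩
          have hLx : Lx n0 N θ (twT N w) := by
            refine ⟨h2, lo, hi, e, A, ?_⟩
            rw [h1]
            exact L
          exact hLx.tw W (by rw [T.lev hY]; exact hlw) (mem_twY.mp hY).1
            (twT_spec (mem_twY.mp hY).2.2).2
        have hwU : w ∉ unnat N := fun h => hwR (mem_sdiff.mpr ⟨h, hwY⟩)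
        have hwN : w ∈ N (topOf c) := HN.mem_iff.mpr ⟨hwU, ht⟩
        have hwA := (L.mem15 hwN hlw.ge).1
        have hT := L.dat.th
        rcases L.dat.typ w hwA with h | h | h | h
        · obtain ⟨g1, g2, g3, g4, g5⟩ := Tv.join_facts L.word L.comp W.gt (topOf c).2 hm h
            (Or.inl rfl) hiff
          exact ⟨C16.O w hwN hlw hwc hzw hcov g1 (by omega) (by rw [hT.p1 w hwA h]; norm_num),
            fun _ => by omega⟩
        · obtain ⟨g1, g2, g3, g4, g5⟩ := Tv.join_facts L.word L.comp W.gt (topOf c).2 hm h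
            (Or.inr (Or.inl rfl)) hiff
          exact ⟨C16.O w hwN hlw hwc hzw hcov g1 (by omega) (by rw [hT.c12 w hwA h]; norm_num),
            fun _ => by omega⟩
        · obtain ⟨g1, g2, g3, g4, g5⟩ := Tv.join_facts L.word L.comp W.gt (topOf c).2 hm h
            (Or.inr (Or.inr rfl)) hiff
          exact ⟨C16.O w hwN hlw hwc hzw hcov g1 (by omega) (by rw [hT.c23 w hwA h]),
            fun _ => by omega⟩
        · rcases L.dat.pat with ⟨a, Ja⟩ | ⟨hn, c1, c2, Jb⟩
          · exact absurd (Ja.uniq w hwA c hA _ h hm) hwc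
          · obtain ⟨-, g2, g3, g4⟩ := join_two L.word L.comp W.gt (topOf c).2 hcw hm h
              (Or.inr rfl) hiff
            have hAw : Ank n0 N θ w := ⟨lo, hi, e, A, by rw [ht]; exact L, hwA, h⟩
            exact ⟨C16.C hn w hAw ht hwc hzw hcov (g2 rfl), fun _ => by omega⟩
      · have hdis : ∀ x, c ≤ x → ¬ w ≤ x := by
          intro x hcx hwx
          have h1 := HN.cp c x hcx (HN.mem_iff.mp hcN).1
          have h2 := W.cp_r2 hwx hwR
          exact ht (h2.trans h1.symm)
        have hct := ct_dis (i := 7) (k := 2) hzc hzw hcov hdis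
        have hct3 := ct_dis (i := 7) (k := 3) hzc hzw hcov hdis
        have hw3 := ct3_ge hlw
        have hmin : min 2 (lev z - 7) = 2 := by rw [hlz]; norm_num
        have hmin3 : min 3 (lev z - 7) = 3 := by rw [hlz]; norm_num
        have h15 : E15 w := hE w hlw fun y hy => by
          rw [W.cp_r2 hy.1.le hwR]
          exact le_topOf y
        have hnab : ct 7 2 z ≤ 50 → nab 7 z ≤ nab 9 z := by
          intro hle
          have e7 := nab_dis (l := 7) (by omega) hzc hzw hcov hdis
          have e9 := nab_dis (l := 9) (by omega) hzc hzw hcov hdis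
          have h9 : 1 ≤ nab 9 w := one_le_nab (by omega)
          have h7 : nab 7 w ≤ nab 9 w := by
            rcases h15 with h | ⟨l, h1, h2, h3, h4, h5, h6⟩ | ⟨h1, h2⟩ | h
            · have := h 7 (by omega) (by omega)
              omega
            · have := h4 7 (by omega) (by omega)
              omega
            · exact h2
            · omega
          omega
        refine ⟨?_, hnab⟩
        rcases W.two_or hwR hlw hzR hzw with h | h | h
        · exact C16.X w hzw hcov hwR ht h (by omega) (by omega) h15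
        · exact C16.big (by omega)
        · exact C16.big h

end Pool.Agent.GaussPoset.W7
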